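import Pool.Agent.Q46.IP.ToolsS
import Pool.Agent.Q46.SL.Expo

/-!
# Isolated patterns of almost primes in the Oppermann intervals: discrete logarithms

The problem is on the primes in `[n ^ 2 - n, n ^ 2]` and `[n ^ 2, n ^ 2 + n]`. Let `η = n ^ 2` or `η = n ^ 2 - n` and `p < n -
log² p`. For every `n` and every pattern `t` without local obstruction we find many `x < p` such that exactly the numbers `η + x
+ t_j` are almost primes and everything else near them is divisible by a prime `≤ log p`, with `x` and its discrete logarithm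
simultaneously.

Let `p` be a large prime and `g`, `c` prime to `p`. In every box `[A1, A1 + N1) × [A2, A2 + N2)` with `N1 N2 ≥ p ^ (3 / 2 + ε)` there are
many points of `y ≡ c g ^ x (mod p)` BOTH of whose coordinates, a number and its discrete logarithm, have the property.

Here the property is, with `y = η + x`: all `y + t_j` have at most `R` prime factors, all larger than `M ^ κ`, while EVERY other
integer within distance `κ rankin(M)` of `y` has a prime factor `≤ log M`; `t` is an arbitrary pattern without local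
obstruction, `|t_j| ≤ (log M) ^ B`, `η` is an arbitrary integer, `|η| ≤ M ^ K`, and `rankin(M) = log M log₂ M log₄ M / (log₃ M)
^ 2`. (`M = p`)

Design and proof: helper46 (modules `Pool.Agent.Q46.IP.*`, `Pool.Agent.Q46.SL.*`): the Rankin covering argument with holes at the
pattern gives a modulus and a residue class in which everything else near the pattern is covered by the small primes; the sieve is
applied to the vectors of residues in this class, which are equidistributed with a power saving by bounds for exponential sums.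
-/

set_option autoImplicit false

namespace Pool.Agent.Results.MP_a8fbd7_nt.IsolatedPatternsLogarithms

open Finset Polynomial Filter
open Pool.Agent.Q46.SL hiding Almost
open Pool.Agent.Q46.IP (LoneS csS evI sysT adm_pair adm_one lone_tupleS lone_pairS lone_oneS)

/-- `n` is not zero and has at most `R` prime factors (counted with multiplicity), all larger than `z` -/
def Almost (z : ℝ) (R : ℕ) (n : ℤ) : Prop :=
  n ≠ 0 ∧ n.natAbs.primeFactorsList.length ≤ R ∧ ∀ q : ℕ, q.Prime → (q : ℤ) ∣ n → z < q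

/-- Rankin's function `log M log₂ M log₄ M / (log₃ M) ^ 2` (iterated logarithms) -/
noncomputable def rankin (M : ℝ) : ℝ :=
  Real.log M * Real.log (Real.log M) * Real.log (Real.log (Real.log (Real.log M))) /
    (Real.log (Real.log (Real.log M))) ^ 2

/-- modulo every prime some residue is different from all `-t_j` -/
def Adm {l : ℕ} (t : Fin l → ℤ) : Prop := ∀ q : ℕ, q.Prime → ∃ a < q, ∀ j, ¬ (q : ℤ) ∣ a + t j

/-- all `y + t_j` have at most `R` prime factors, all larger than `M ^ κ`, and every other integer `y + i` with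
`|i| ≤ κ rankin(M)` has a prime factor `≤ log M` -/
def Alone {l : ℕ} (t : Fin l → ℤ) (κ M : ℝ) (R : ℕ) (y : ℤ) : Prop :=
  (∀ j, Almost (M ^ κ) R (y + t j)) ∧
    ∀ i : ℤ, |(i : ℝ)| ≤ κ * rankin M → (∀ j, i ≠ t j) → ∃ q : ℕ, q.Prime ∧ (q : ℝ) ≤ Real.log M ∧ (q : ℤ) ∣ y + i

/-- Every pattern without local obstruction occurs in complete isolation at `η + x` for both coordinates `x` of many points of `y = c g ^ x`, uniformly in `η`. -/
theorem result (l B K : ℕ) (ε : ℝ) (hε : 0 < ε) (hε1 : ε ≤ 1) :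
    ∃ κ : ℝ, 0 < κ ∧ ∃ R p₀ : ℕ, ∀ p : ℕ, p₀ ≤ p → p.Prime → ∀ t : Fin l → ℤ, Adm t → (∀ j, |(t j : ℝ)| ≤ Real.log p ^ B) → ∀ η : ℤ, |(η : ℝ)| ≤ (p : ℝ) ^ K → ∀ g c : ℤ, ¬ (p : ℤ) ∣ g → ¬ (p : ℤ) ∣ c →
      ∀ A1 N1 A2 N2 : ℕ, A1 + N1 ≤ orderOf (g : ZMod p) → A2 + N2 ≤ p → (p : ℝ) ^ (3 / 2 + ε) ≤ (N1 : ℝ) * N2 →
      ∃ G : Finset (ℕ × ℕ), ((N1 : ℝ) * N2 / p) * (p : ℝ) ^ (-ε) ≤ G.card ∧
        ∀ z ∈ G, (A1 ≤ z.1 ∧ z.1 < A1 + N1) ∧ (A2 ≤ z.2 ∧ z.2 < A2 + N2) ∧ (p : ℤ) ∣ z.2 - c * g ^ z.1 ∧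
          Alone t κ p R (η + z.1) ∧ Alone t κ p R (η + z.2) := by
  obtain ⟨κ, hκ, cc, hcc, p₀, h⟩ := Pool.Agent.Q46.SL.exponential (LoneS (B + 1) K : PE l 0 l × ℤ → ℝ → ℝ → ℤ → Prop)
    (fun k' M => M ^ (-(ε / (2 * (((2 : ℕ) : ℝ) + 1)) * k'))) (fun k' _ => csS l l (B + 1) K (ε / (2 * (((2 : ℕ) : ℝ) + 1))) (by positivity) k') ε hε hε1
  obtain ⟨p₁, hp₁8, hp₁, hp₂⟩ := evI hcc hε hκ 2
  refine ⟨κ, hκ, ⌊((((K + 2) * (l + 1) : ℕ)) : ℝ) / κ⌋₊, max p₁ p₀, ?_⟩
  intro p hp hpp t hadm hts η hη g c hg hc A1 N1 A2 N2 hA1 hA2 hN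
  have hpr : (p₁ : ℝ) ≤ p := by exact_mod_cast (le_max_left _ _).trans hp
  have hord := ord_le hpp g hg
  obtain ⟨G, hG, hG2⟩ := h p ((le_max_right _ _).trans hp) (sysT t hadm, η) hpp g c hg hc A1 N1 A2 N2 hA1 hA2 hN
  refine ⟨G, le_trans (hp₁ _ hpr _ (by positivity)) hG, ?_⟩
  intro z hz
  obtain ⟨a1, a2, a3, a4, a5⟩ := hG2 z hz
  exact ⟨a1, a2, a3, lone_tupleS hp₁8 hpr hη hts a4 (by exact_mod_cast (by omega : z.1 ≤ p)), lone_tupleS hp₁8 hpr hη hts a5 (by exact_mod_cast (by omega : z.2 ≤ p))⟩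

end Pool.Agent.Results.MP_a8fbd7_nt.IsolatedPatternsLogarithms
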