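import Pool.Agent.Q48.RD.One

/-!
# The order of magnitude of the counts in Oppermann's intervals, for integers with restricted digits

Let `g ≥ 2` be a base and `K` a large number of digits. For every `i < K` let `A i` be an arbitrary set of digits, such that the number
`|A 0| ⋯ |A (K - 1)|` of the integers `t < g ^ K` whose `i`-th digit belongs to `A i` for all `i < K` is at least `exp (- c K) g ^ K`
(`Rich`). Let `n ≤ g ^ (E K)` and `m₀ ≥ 1` be arbitrary with `m₀ + g ^ K ≤ n`. So the numbers `n ^ 2 + m`, `n ^ 2 - m` with `m = m₀ + t`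
and these `t` are in the intervals `[n ^ 2, n ^ 2 + n]`, `[n ^ 2 - n, n ^ 2]`, and the length `g ^ K` may be an arbitrarily small power
of `n`. Then:

* above `n ^ 2` at least `κ |A 0| ⋯ |A (K - 1)| / K` of the numbers `n ^ 2 + m` have at most `r` prime factors, all larger than
  `g ^ (K / r)`, and at most `C |A 0| ⋯ |A (K - 1)| / K` of them are primes;
* the same for the numbers `n ^ 2 - m` below `n ^ 2`;
* for at least `κ V |A 0| ⋯ |A (K - 1)|` of the `m`, and at least `κ |A 0| ⋯ |A (K - 1)| / K ^ 2`, both numbers `n ^ 2 ± m` are such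
  almost primes, and for at most `C V |A 0| ⋯ |A (K - 1)|` both are primes, where `V` is the product of `1 - ν (p) / p` over the primes
  `p ≤ g ^ K`, `ν (p)` the number of the zeros of `(n ^ 2 + X) (n ^ 2 - X)` modulo `p`.

For the lower bounds it is supposed that there is no obvious obstruction (some digit `d` in `A 0` is such that the numbers for `m₀ + d` are
prime to `g`). Since `K` is of the order of magnitude of `log n` if `n ≥ g ^ K` is bounded by a fixed power of `g ^ K`, these are the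
orders of magnitude which correspond to the conjectured counts `n / (2 log n)` in the two intervals, for the subsets with restricted
digits of arbitrary short subintervals. The constants do not depend on `n`, `m₀` and the sets `A i`.
-/

set_option autoImplicit false

namespace Pool.Agent.Results.MP_a8fbd7_nt.RestrictedDigitCounts

open Filter Finset
open Pool.Agent.Q315.RD Pool.Agent.Q48.RD

/-- The product of `1 - ν (p) / p` over the primes `p ≤ y`, `ν (p)` the number of the zeros of `(n ^ 2 + X) (n ^ 2 - X)` modulo `p`. -/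
noncomputable def V (n y : ℕ) : ℝ := linDensity ![1, -1] ![(n : ℤ) ^ 2, (n : ℤ) ^ 2] y

lemma adm (n : ℕ) : AdmZ ![1, -1] ![(n : ℤ) ^ 2, (n : ℤ) ^ 2] := by
  intro p hp
  rcases Nat.lt_or_ge 2 p with h | h
  · refine adm_bigZ _ _ hp h fun j => ?_
    have h1 : ¬ (p : ℤ) ∣ 1 := fun h1 => by
      have h2 : (p : ℤ) ∣ ((1 : ℕ) : ℤ) := by exact_mod_cast h1
      exact hp.one_lt.ne' (Nat.dvd_one.1 (Int.natCast_dvd_natCast.1 h2))
    fin_cases j
    · exact h1
    · change ¬ (p : ℤ) ∣ -1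
      rwa [dvd_neg]
  · have h2 : p = 2 := by have := hp.two_le; omega
    subst h2
    have e : (n : ℤ) ^ 2 = n * n := sq (n : ℤ)
    have h3 : Even ((n : ℤ) * (n + 1)) := Int.even_mul_succ_self n
    obtain ⟨w, hw⟩ := h3
    refine ⟨n + 1, fun j hj => ?_⟩
    fin_cases j
    · have h4 : ((2 : ℕ) : ℤ) ∣ 1 * ((n : ℤ) + 1) + (n : ℤ) ^ 2 := hj
      push_cast at h4
      rw [e] at h4
      have h5 : 1 * ((n : ℤ) + 1) + n * n = n * (n + 1) + 1 := by ring
      rw [h5, hw] at h4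
      omega
    · have h4 : ((2 : ℕ) : ℤ) ∣ -1 * ((n : ℤ) + 1) + (n : ℤ) ^ 2 := hj
      push_cast at h4
      rw [e] at h4
      have h5 : -1 * ((n : ℤ) + 1) + n * n = n * (n + 1) - 2 * n - 1 := by ring
      rw [h5, hw] at h4
      omega

/-- **The order of magnitude of the counts in Oppermann's intervals, for integers with restricted digits.** -/
theorem result (E : ℕ) :
    ∃ c : ℝ, 0 < c ∧ ∃ r₀ : ℕ, 2 ≤ r₀ ∧ ∀ r : ℕ, r₀ ≤ r → ∀ g : ℕ, 2 ≤ g → ∃ κ C : ℝ, 0 < κ ∧ 0 < C ∧
      ∀ᶠ K : ℕ in atTop, ∀ n m₀ : ℕ, n ≤ g ^ (E * K) → 1 ≤ m₀ → m₀ + g ^ K ≤ n → ∀ A : ℕ → Finset ℕ, Rich c g K A →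
          -- above the square
          ((∃ d ∈ A 0, (n ^ 2 + (m₀ + d)).Coprime g) →
            κ * choices K A / K ≤ count g K A fun t => AlmostPrime (g ^ K) r (n ^ 2 + (m₀ + t))) ∧
          (count g K A (fun t => (n ^ 2 + (m₀ + t)).Prime) : ℝ) ≤ C * choices K A / K ∧
          -- below the square
          ((∃ d ∈ A 0, (n ^ 2 - (m₀ + d)).Coprime g) →
            κ * choices K A / K ≤ count g K A fun t => AlmostPrime (g ^ K) r (n ^ 2 - (m₀ + t))) ∧
          (count g K A (fun t => (n ^ 2 - (m₀ + t)).Prime) : ℝ) ≤ C * choices K A / K ∧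
          -- on both sides
          ((∃ d ∈ A 0, (n ^ 2 + (m₀ + d)).Coprime g ∧ (n ^ 2 - (m₀ + d)).Coprime g) →
            κ * V n (g ^ K) * choices K A ≤ count g K A (fun t =>
              AlmostPrime (g ^ K) r (n ^ 2 + (m₀ + t)) ∧ AlmostPrime (g ^ K) r (n ^ 2 - (m₀ + t))) ∧
            κ * choices K A / (K : ℝ) ^ 2 ≤ count g K A (fun t =>
              AlmostPrime (g ^ K) r (n ^ 2 + (m₀ + t)) ∧ AlmostPrime (g ^ K) r (n ^ 2 - (m₀ + t)))) ∧
          (count g K A (fun t => (n ^ 2 + (m₀ + t)).Prime ∧ (n ^ 2 - (m₀ + t)).Prime) : ℝ) ≤ C * V n (g ^ K) * choices K A := by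
  obtain ⟨c1, hc1, r1, hr1, h1⟩ := oneLin (2 * E + 1)
  obtain ⟨c2, hc2, r2, hr2, h2⟩ := famLin' 2 (2 * E + 1)
  refine ⟨min c1 c2, by positivity, max r1 r2, hr1.trans (le_max_left _ _), fun r hr g hg => ?_⟩
  obtain ⟨κ1, C1, hκ1, hC1, h3⟩ := h1 r ((le_max_left _ _).trans hr) g hg
  obtain ⟨κ2, C2, hκ2, hC2, h4⟩ := h2 r ((le_max_right _ _).trans hr) g hg
  obtain ⟨W, hW, h5⟩ := oneV_unit g hg
  refine ⟨min κ1 κ2, max (C1 * W) C2, by positivity, by positivity, ?_⟩
  filter_upwards [h3, h4, h5, linDensity_lower 2 g hg |>.choose_spec.2, eventually_ge_atTop 1] with K hK1 hK2 hK3 hK4 hK5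
  intro n m₀ hn hm₀ hm A hA
  have hg1 : 1 ≤ g := by omega
  have hcs : (0 : ℝ) ≤ choices K A := Nat.cast_nonneg _
  have hA1 := rich_mono hA (min_le_left _ _)
  have hA2 := rich_mono hA (min_le_right _ _)
  have hnn : n ≤ n ^ 2 := Nat.le_self_pow (by norm_num) n
  have hbig : n ^ 2 + n ≤ g ^ ((2 * E + 1) * K) := by
    have e1 : n ^ 2 ≤ g ^ (E * K) * g ^ (E * K) := by
      rw [sq]
      exact Nat.mul_le_mul hn hn
    have e2 : g ^ ((2 * E + 1) * K) = g ^ (E * K) * g ^ (E * K) * g ^ K := by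
      rw [← pow_add, ← pow_add]
      congr 1
      ring
    have e3 : 2 ≤ g ^ K := hg.trans (Nat.le_self_pow (by omega) g)
    rw [e2]
    calc n ^ 2 + n ≤ g ^ (E * K) * g ^ (E * K) + g ^ (E * K) * g ^ (E * K) := Nat.add_le_add e1 (hnn.trans e1)
      _ = g ^ (E * K) * g ^ (E * K) * 2 := by ring
      _ ≤ _ := Nat.mul_le_mul_left _ e3
  have hbigz : (n : ℤ) ^ 2 + n ≤ (g : ℤ) ^ ((2 * E + 1) * K) := by exact_mod_cast hbig
  have hpos : (1 : ℤ) ≤ (g : ℤ) ^ ((2 * E + 1) * K) := by exact_mod_cast Nat.one_le_pow _ _ hg1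
  have hn0 : (0 : ℤ) ≤ n := Int.natCast_nonneg n
  have hmz : (m₀ : ℤ) + g ^ K ≤ n := by exact_mod_cast hm
  have hgK : (0 : ℤ) ≤ (g : ℤ) ^ K := by positivity
  have hup := hK1 1 ((n : ℤ) ^ 2 + m₀) (fun t => n ^ 2 + (m₀ + t)) (by rw [abs_one]; exact hpos)
    (by rw [abs_of_nonneg (by positivity)]; linarith) isCoprime_one_left (fun t _ => by push_cast; ring)
    (fun t _ => by omega) A hA1
  have hsub : ∀ t < g ^ K, ((n ^ 2 - (m₀ + t) : ℕ) : ℤ) = (n : ℤ) ^ 2 - (m₀ + t) := fun t ht => by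
    rw [Nat.cast_sub (by omega)]
    push_cast
    ring
  have hle : ∀ t < g ^ K, t ≤ n ^ 2 - (m₀ + t) := by
    intro t ht
    rcases Nat.lt_or_ge n 2 with h | h
    · omega
    · have : 2 * n ≤ n ^ 2 := by nlinarith
      omega
  have hdown := hK1 (-1) ((n : ℤ) ^ 2 - m₀) (fun t => n ^ 2 - (m₀ + t)) (by rw [abs_neg, abs_one]; exact hpos)
    (by
      have h6 : (0 : ℤ) ≤ (n : ℤ) ^ 2 - m₀ := by
        have : (n : ℤ) ≤ (n : ℤ) ^ 2 := by exact_mod_cast hnn
        linarith
      rw [abs_of_nonneg h6]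
      linarith) isCoprime_one_left.neg_left
    (fun t ht => by rw [hsub t ht]; ring) hle A hA1
  have hboth := hK2 ![1, -1] ![(n : ℤ) ^ 2, (n : ℤ) ^ 2] m₀ (fun j t => ![n ^ 2 + (m₀ + t), n ^ 2 - (m₀ + t)] j)
    (fun j => by
      fin_cases j
      · change |(1 : ℤ)| ≤ _
        rw [abs_one]; exact hpos
      · change |(-1 : ℤ)| ≤ _
        rw [abs_neg, abs_one]; exact hpos)
    (fun j => by
      have h6 : |(n : ℤ) ^ 2| ≤ (g : ℤ) ^ ((2 * E + 1) * K) := by
        rw [abs_of_nonneg (by positivity)]; linarith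
      fin_cases j <;> exact h6)
    (by omega) (adm n)
    (fun t ht j => by
      fin_cases j
      · change ((n ^ 2 + (m₀ + t) : ℕ) : ℤ) = 1 * ((m₀ : ℤ) + t) + (n : ℤ) ^ 2
        push_cast; ring
      · change ((n ^ 2 - (m₀ + t) : ℕ) : ℤ) = -1 * ((m₀ : ℤ) + t) + (n : ℤ) ^ 2
        rw [hsub t ht]; ring)
    (fun t ht j => by
      fin_cases j
      · change t ≤ n ^ 2 + (m₀ + t)
        omega
      · exact hle t ht) A hA2
  simp only [Fin.forall_fin_two, Matrix.cons_val_zero, Matrix.cons_val_one, Matrix.cons_val_fin_one] at hboth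
  have hlow : ∀ x : ℝ, κ1 * choices K A / K ≤ x → min κ1 κ2 * choices K A / K ≤ x := fun x hx =>
    (div_le_div_of_nonneg_right (mul_le_mul_of_nonneg_right (min_le_left _ _) hcs) (Nat.cast_nonneg K)).trans hx
  have hupp : ∀ α : ℤ, IsUnit α → ∀ x : ℝ, x ≤ C1 * oneV α (g ^ K) * choices K A → x ≤ max (C1 * W) C2 * choices K A / K := by
    intro α hα x hx
    refine hx.trans ?_
    calc C1 * oneV α (g ^ K) * choices K A ≤ C1 * (W / K) * choices K A :=
          mul_le_mul_of_nonneg_right (mul_le_mul_of_nonneg_left (hK3 α hα) hC1.le) hcs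
      _ = C1 * W * choices K A / K := by ring
      _ ≤ _ := div_le_div_of_nonneg_right (mul_le_mul_of_nonneg_right (le_max_left _ _) hcs) (Nat.cast_nonneg K)
  have hV : 0 ≤ V n (g ^ K) := by
    have h7 := hK4 _ _ (adm n)
    refine le_trans ?_ h7
    have := (linDensity_lower 2 g hg).choose_spec.1
    positivity
  refine ⟨fun hd => hlow _ (hup.1 hd).2, hupp 1 isUnit_one _ hup.2, fun hd => hlow _ (hdown.1 hd).2, hupp (-1) isUnit_one.neg _ hdown.2,
    fun hd => ?_, ?_⟩
  · obtain ⟨h8, h9⟩ := hboth.1 hd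
    constructor
    · exact (mul_le_mul_of_nonneg_right (mul_le_mul_of_nonneg_right (min_le_right _ _) hV) hcs).trans h8
    · exact (div_le_div_of_nonneg_right (mul_le_mul_of_nonneg_right (min_le_right _ _) hcs) (by positivity)).trans h9
  · exact hboth.2.trans (mul_le_mul_of_nonneg_right (mul_le_mul_of_nonneg_right (le_max_right _ _) hV) hcs)

end Pool.Agent.Results.MP_a8fbd7_nt.RestrictedDigitCounts
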