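import Pool.Agent.Q25.UReg6

/-!
# Almost primes at mirror positions in the Oppermann intervals of `s` integers at once: the laws

Let `s ≥ 1`, `E ≥ 1`, `0 < θ`.  For EVERY large `n` and EVERY difference `D ≤ n ^ E` divisible by `(2s)!`, call `m` good if
none of the `2s` numbers `(n + iD)² + m`, `(n + iD)² - m`, `i < s`, has a prime factor `≤ n ^ (1/r)` (for `m ≤ n` these
numbers lie in the intervals counted by `B(n + iD)` and by `A(n + iD)`).  In ALL intervals of length at least `n ^ θ` the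
numbers of the good `m` in windows follow the Poisson law and the gaps between the good `m` are exponentially
distributed, and almost all elements of an ARBITRARY set of good `m` (for instance of the `m` for which all `2s` numbers
are prime) are regular points of this set.
-/

set_option autoImplicit false

namespace Pool.Agent.Results.MP_a8fbd7_nt.UniformLaws

open Finset
open Pool.Agent.Q25.UReg (Good V count pois PoissonLaw GapLaw N RightOrder ConstantDensity badScales Irregular)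

/-- the coefficients of `m` in `(n + iD)² + m` (index `i < s`) and in `(n + iD)² - m` (index `s + i`) -/
def co (s : ℕ) (i : Fin (2 * s)) : ℤ := if (i : ℕ) < s then 1 else -1

/-- the constant terms: `(n + iD)²` (index `i < s`) and `(n + iD)²` (index `s + i`) -/
def ct (s n D : ℕ) (i : Fin (2 * s)) : ℤ :=
  if (i : ℕ) < s then ((n : ℤ) + (i : ℕ) * D) ^ 2 else ((n : ℤ) + ((i : ℕ) - s : ℕ) * D) ^ 2

lemma co_ne (s : ℕ) (i : Fin (2 * s)) : co s i ≠ 0 := by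
  unfold co
  split_ifs <;> norm_num

lemma ct_sq (s n D : ℕ) (i : Fin (2 * s)) : ∃ j : ℕ, j < s ∧ ct s n D i = ((n : ℤ) + j * D) ^ 2 := by
  have hi := i.isLt
  unfold ct
  split_ifs with h
  · exact ⟨i, h, rfl⟩
  · exact ⟨(i : ℕ) - s, by omega, rfl⟩

lemma adm (s n D : ℕ) (hD : (2 * s).factorial ∣ D) (p : ℕ) (hp : p.Prime) :
    ∃ m : ℤ, ∀ i, ¬ (p : ℤ) ∣ co s i * m + ct s n D i := by
  rcases lt_or_ge (2 * s) p with h2 | h2
  · apply Pool.Agent.Q25.UReg.adm_small (co s) (ct s n D) p hp h2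
    have h1 : ¬ (p : ℤ) ∣ 1 := fun h => hp.one_lt.ne' (Nat.dvd_one.1 (by exact_mod_cast h))
    intro i h
    have h3 := h.1
    unfold co at h3
    split_ifs at h3
    · exact h1 h3
    · exact h1 ((dvd_neg).1 h3)
  · have hpD : (p : ℤ) ∣ (D : ℤ) := by
      exact_mod_cast ((Nat.dvd_factorial hp.pos h2).trans hD)
    have hm : ∃ m : ℤ, ¬ (p : ℤ) ∣ m + (n : ℤ) ^ 2 ∧ ¬ (p : ℤ) ∣ m - (n : ℤ) ^ 2 := by
      rcases hp.two_le.lt_or_eq with h3 | h3
      · obtain ⟨m, hm⟩ := Pool.Agent.Q25.UReg.adm_small (k := 2) ![1, 1] ![(n : ℤ) ^ 2, -(n : ℤ) ^ 2] p hp h3 (by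
          intro i h
          have h1 : ¬ (p : ℤ) ∣ 1 := fun h => hp.one_lt.ne' (Nat.dvd_one.1 (by exact_mod_cast h))
          fin_cases i
          · exact h1 h.1
          · exact h1 h.1)
        refine ⟨m, ?_, ?_⟩
        · have := hm 0
          simpa using this
        · have := hm 1
          simpa [sub_eq_add_neg] using this
      · subst h3
        refine ⟨(n : ℤ) ^ 2 + 1, ?_, ?_⟩
        · intro h
          have e : (n : ℤ) ^ 2 + 1 + (n : ℤ) ^ 2 = 2 * (n : ℤ) ^ 2 + 1 := by ring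
          rw [e] at h
          omega
        · intro h
          have e : (n : ℤ) ^ 2 + 1 - (n : ℤ) ^ 2 = 1 := by ring
          rw [e] at h
          omega
    obtain ⟨m, h3, h4⟩ := hm
    refine ⟨m, fun i hi => ?_⟩
    obtain ⟨j, -, hj⟩ := ct_sq s n D i
    have h6 : (p : ℤ) ∣ ct s n D i - (n : ℤ) ^ 2 := by
      rw [hj]
      have e : ((n : ℤ) + j * D) ^ 2 - (n : ℤ) ^ 2 = D * (j * (2 * n + j * D)) := by ring
      rw [e]
      exact hpD.mul_right _
    unfold co at hi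
    split_ifs at hi
    · apply h3
      have e : m + (n : ℤ) ^ 2 = (1 * m + ct s n D i) - (ct s n D i - (n : ℤ) ^ 2) := by ring
      rw [e]
      exact dvd_sub hi h6
    · apply h4
      have e : m - (n : ℤ) ^ 2 = (ct s n D i - (n : ℤ) ^ 2) - (-1 * m + ct s n D i) := by ring
      rw [e]
      exact dvd_sub h6 hi

lemma ct_pos (s n D : ℕ) (hn : 1 ≤ n) (i : Fin (2 * s)) : (n : ℤ) ≤ ct s n D i := by
  obtain ⟨j, -, hj⟩ := ct_sq s n D i
  rw [hj]
  have h1 : (1 : ℤ) ≤ n := by exact_mod_cast hn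
  have h2 : (0 : ℤ) ≤ (j : ℤ) * D := by positivity
  nlinarith

lemma two (s n D : ℕ) (hs : 1 ≤ s) (hn : 1 ≤ n) : Pool.Agent.Q25.UReg.TwoForms (co s) (ct s n D) := by
  refine ⟨⟨0, by omega⟩, ⟨s, by omega⟩, ?_, ?_⟩
  · rintro ⟨h, -⟩
    unfold co at h
    simp only [lt_irrefl, if_false] at h
    rw [if_pos (by omega)] at h
    norm_num at h
  · rintro ⟨-, h⟩
    have h1 := ct_pos s n D hn ⟨0, by omega⟩
    have h2 := ct_pos s n D hn ⟨s, by omega⟩
    omega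

lemma noTr (s n D : ℕ) (hn : 1 ≤ n) (U : ℝ) (hU : U < n) :
    Pool.Agent.Q25.UReg.NoTranslates2 (co s) (ct s n D) U := by
  intro i j t ht htU
  have h1 : (t : ℝ) < (n : ℝ) := lt_of_le_of_lt htU hU
  have h2 : (t : ℤ) < n := by exact_mod_cast h1
  have ht' : (1 : ℤ) ≤ t := by exact_mod_cast ht
  have hi := ct_pos s n D hn i
  have hj := ct_pos s n D hn j
  obtain ⟨a, -, hia⟩ := ct_sq s n D i
  obtain ⟨b, -, hjb⟩ := ct_sq s n D j
  -- differences of squares are not `± t`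
  have key : ∀ x y : ℕ, ((n : ℤ) + x * D) ^ 2 - ((n : ℤ) + y * D) ^ 2 ≠ t := by
    intro x y h
    have e : ((n : ℤ) + x * D) ^ 2 - ((n : ℤ) + y * D) ^ 2 = (((x : ℤ) - y) * D) * (2 * n + (x + y) * D) := by ring
    rw [e] at h
    have h5 : (0 : ℤ) ≤ ((x : ℤ) + y) * D := by positivity
    have h6 : (0 : ℤ) < 2 * (n : ℤ) + (x + y) * D := by omega
    have h7 : 0 < ((x : ℤ) - y) * D := by
      by_contra hcon
      have := mul_nonpos_of_nonpos_of_nonneg (not_lt.1 hcon) h6.le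
      omega
    have h8 : (1 : ℤ) ≤ ((x : ℤ) - y) * D := by omega
    have h9 : 2 * (n : ℤ) + (x + y) * D ≤ (((x : ℤ) - y) * D) * (2 * n + (x + y) * D) := by
      nlinarith
    omega
  unfold co
  split_ifs
  · refine ⟨fun h => ?_, fun h => ?_⟩
    · have h3 := h.2
      rw [hia, hjb] at h3
      exact key a b (by linarith)
    · have := h.1
      omega
  · refine ⟨fun h => ?_, fun h => ?_⟩
    · have := h.1
      omega
    · have := h.2
      omega
  · refine ⟨fun h => ?_, fun h => ?_⟩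
    · have := h.1
      omega
    · have := h.2
      omega
  · refine ⟨fun h => ?_, fun h => ?_⟩
    · have h3 := h.2
      rw [hia, hjb] at h3
      exact key b a (by linarith)
    · have := h.1
      omega

lemma bounds (s n D : ℕ) (E : ℝ) (hE : 1 ≤ E) (hn : (s + 1) ^ 2 ≤ n) (hD : (D : ℝ) ≤ (n : ℝ) ^ E) :
    (∀ i, |(co s i : ℝ)| ≤ (n : ℝ) ^ (2 * E + 1)) ∧ ∀ i, |(ct s n D i : ℝ)| ≤ (n : ℝ) ^ (2 * E + 1) := by
  have hn1' : 1 ≤ n := le_trans (Nat.one_le_pow _ _ (by omega)) hn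
  have hn1 : (1 : ℝ) ≤ n := by exact_mod_cast hn1'
  have hns : ((s : ℝ) + 1) ^ 2 ≤ n := by exact_mod_cast hn
  have hnE : (n : ℝ) ≤ (n : ℝ) ^ E := by
    conv_lhs => rw [← Real.rpow_one (n : ℝ)]
    exact Real.rpow_le_rpow_of_exponent_le hn1 hE
  have e : (n : ℝ) ^ (2 * E + 1) = ((n : ℝ) ^ E) ^ 2 * n := by
    rw [Real.rpow_add (by linarith), Real.rpow_one, two_mul, Real.rpow_add (by linarith), sq]
  constructor
  · intro i
    have h1 : (1 : ℝ) ≤ (n : ℝ) ^ (2 * E + 1) := Real.one_le_rpow hn1 (by linarith)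
    unfold co
    split_ifs
    · simpa using h1
    · simpa using h1
  · intro i
    obtain ⟨j, hj, hij⟩ := ct_sq s n D i
    rw [hij, e]
    push_cast
    rw [abs_of_nonneg (by positivity)]
    have h2 : (n : ℝ) + j * D ≤ (s + 1) * (n : ℝ) ^ E := by
      have h3 : (j : ℝ) * D ≤ s * (n : ℝ) ^ E :=
        mul_le_mul (by exact_mod_cast hj.le) hD (by positivity) (by positivity)
      linarith
    calc ((n : ℝ) + j * D) ^ 2 ≤ ((s + 1) * (n : ℝ) ^ E) ^ 2 := pow_le_pow_left₀ (by positivity) h2 2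
      _ = ((n : ℝ) ^ E) ^ 2 * ((s : ℝ) + 1) ^ 2 := by ring
      _ ≤ ((n : ℝ) ^ E) ^ 2 * n := mul_le_mul_of_nonneg_left hns (by positivity)

/-- **The laws of the positions with almost primes in both Oppermann intervals of the `s` integers `n + iD`.** -/
theorem result (s : ℕ) (hs : 1 ≤ s) (E θ : ℝ) (hE : 1 ≤ E) (hθ : 0 < θ) :
    (∀ (l₀ : ℕ) (x₀ ε : ℝ), 0 < ε → ∃ r₀ : ℕ, ∀ r : ℕ, r₀ ≤ r → ∃ n₀ : ℕ, ∀ n : ℕ, n₀ ≤ n →
      ∀ D : ℕ, (2 * s).factorial ∣ D → (D : ℝ) ≤ (n : ℝ) ^ E → ∀ Z Y : ℕ, (n : ℝ) ^ θ ≤ Y →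
        PoissonLaw (co s) (ct s n D) r n Z Y x₀ ε ∧ GapLaw (co s) (ct s n D) r n Z Y l₀ x₀ ε) ∧
    ∃ r₀ : ℕ, ∀ r : ℕ, r₀ ≤ r → ∀ ε : ℝ, 0 < ε → ∃ c : ℝ, 0 < c ∧ ∀ δ : ℝ, 0 < δ → ∃ B n₀ : ℕ,
      ∀ n : ℕ, n₀ ≤ n → ∀ D : ℕ, (2 * s).factorial ∣ D → (D : ℝ) ≤ (n : ℝ) ^ E →
        ∀ u Y : ℕ, (n : ℝ) ^ θ ≤ Y → Y ≤ n → Y ≤ u →
        ∀ A : Set ℕ, (∀ m ∈ A, Good (co s) (ct s n D) r n m) →
          (N (Irregular A (V (co s) (ct s n D) r n) c δ B Y) u (u + Y) : ℝ) ≤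
            ε * (Y * V (co s) (ct s n D) r n) := by
  constructor
  · intro l₀ x₀ ε hε
    obtain ⟨r₀, _, h⟩ := Pool.Agent.Q25.UReg.lin_laws2 (2 * s) (2 * E + 1) (1 / 2) θ (by linarith) (by norm_num) hθ
      l₀ x₀ ε hε
    refine ⟨r₀, fun r hr => ?_⟩
    obtain ⟨n₀, hn₀⟩ := Filter.eventually_atTop.1 ((h r hr).and (Filter.eventually_ge_atTop ((s + 1) ^ 2 + 2)))
    refine ⟨n₀, fun n hn D hdvd hDE Z Y hY => ?_⟩
    obtain ⟨h1, h2⟩ := hn₀ n hn
    have hb := bounds s n D E hE (by omega) hDE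
    have hn1 : (1 : ℝ) < n := by exact_mod_cast (by omega : 1 < n)
    have hU : (n : ℝ) ^ (1 / 2 : ℝ) < n := by
      conv_rhs => rw [← Real.rpow_one (n : ℝ)]
      exact Real.rpow_lt_rpow_of_exponent_lt hn1 (by norm_num)
    exact h1 (co s) (ct s n D) (co_ne s) hb.1 hb.2 (adm s n D hdvd) (two s n D hs (by omega))
      (noTr s n D (by omega) _ hU) Z Y hY
  · obtain ⟨r₀, _, h⟩ := Pool.Agent.Q25.UReg.lin_reg2 (2 * s) (2 * E + 1) θ (by linarith) hθ
    refine ⟨r₀, fun r hr ε hε => ?_⟩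
    obtain ⟨c, hc, h1⟩ := h r hr ε hε
    refine ⟨c, hc, fun δ hδ => ?_⟩
    obtain ⟨B, hB⟩ := h1 δ hδ
    obtain ⟨n₀, hn₀⟩ := Filter.eventually_atTop.1 (hB.and (Filter.eventually_ge_atTop ((s + 1) ^ 2 + 2)))
    refine ⟨B, n₀, fun n hn D hdvd hDE u Y hXY hYX hYu A hA => ?_⟩
    obtain ⟨h1, h2⟩ := hn₀ n hn
    have hb := bounds s n D E hE (by omega) hDE
    exact h1 (co s) (ct s n D) (co_ne s) hb.1 hb.2 (adm s n D hdvd) (two s n D hs (by omega)) u Y hXY hYX hYu A hA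

end Pool.Agent.Results.MP_a8fbd7_nt.UniformLaws
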